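import Pool.Agent.Lib.MP_778b46_nt.Main

/-!
Lower bound for the number of `(a,b)`-representable even numbers.
-/

open Filter

namespace Pool.Agent.Results.MP_778b46_nt.DensityLower

theorem result (a b : ℕ) : ∃ c : ℝ, 0 < c ∧ ∀ᶠ X : ℕ in atTop,
    c * X / (Real.log (Real.log X) ^ b * Real.log (Real.log (Real.log X))) ≤
      (Set.ncard {n : ℕ | n ≤ X ∧ ∃ x y : ℕ, 0 < x ∧ 0 < y ∧
        Nat.iterate (fun k : ℕ => Nat.nth Nat.Prime (k - 1)) (a + 1) x ≠
          Nat.iterate (fun k : ℕ => Nat.nth Nat.Prime (k - 1)) (b + 1) y ∧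
        Nat.iterate (fun k : ℕ => Nat.nth Nat.Prime (k - 1)) (a + 1) x +
          Nat.iterate (fun k : ℕ => Nat.nth Nat.Prime (k - 1)) (b + 1) y = 2 * n} : ℝ) :=
  Pool.Agent.Lib.MP_778b46_nt.main a b

end Pool.Agent.Results.MP_778b46_nt.DensityLower
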