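import Pool.Agent.Lib.MP_778b46_nt.GX.Bs3
import Pool.Agent.Lib.MP_778b46_nt.GX.Cert4
import Pool.Agent.Lib.MP_778b46_nt.MB.T5

/-!
The exceptional set in the binary Goldbach problem has at most `C X ^ (7 / 12 + ε)` elements.
-/

namespace Pool.Agent.Results.MP_778b46_nt.ExceptionalSet

open Pool.Agent.Lib.MP_778b46_nt

theorem result : ∀ ε : ℝ, 0 < ε → ∃ C : ℝ, ∀ X : ℕ, 1 ≤ X →
    (Set.ncard {n : ℕ | 1 ≤ n ∧ n ≤ X ∧ ¬ ∃ x y : ℕ, 0 < x ∧ 0 < y ∧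
      Nat.nth Nat.Prime (x - 1) ≠ Nat.nth Nat.Prime (y - 1) ∧
      Nat.nth Nat.Prime (x - 1) + Nat.nth Nat.Prime (y - 1) = 2 * n} : ℝ) ≤
        C * (X : ℝ) ^ (7 / 12 + ε) :=
  GX.P3.exc_final712 (fun _ h0 h1 => MB.ma_all2 h0 h1) (by norm_num) (by norm_num) GX.cert4

end Pool.Agent.Results.MP_778b46_nt.ExceptionalSet
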