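import Pool.Agent.Lib.MP_778b46_nt.GL.F4

/-!
Every large even number is a sum of two primes and six powers of two.
-/

namespace Pool.Agent.Results.MP_778b46_nt.GoldbachLinnik

theorem result : ∃ N₀ : ℕ, ∀ N : ℕ, N₀ ≤ N → Even N →
    ∃ p q : ℕ, p.Prime ∧ q.Prime ∧ ∃ a : Fin 6 → ℕ, (∀ i, 1 ≤ a i) ∧
      N = p + q + ∑ i, 2 ^ a i :=
  Pool.Agent.Lib.MP_778b46_nt.GL.six

end Pool.Agent.Results.MP_778b46_nt.GoldbachLinnik
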