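import Pool.Agent.Lib.MP_778b46_nt.Th.Loc
import Pool.Agent.Lib.MP_778b46_nt.Th.Maj

/-!
The binary Goldbach problem along the values of a polynomial.
-/

namespace Pool.Agent.Results.MP_778b46_nt.ThinSequences

open Pool.Agent.Lib.MP_778b46_nt

theorem result (Φ : Polynomial ℤ) (hΦ : 0 < Φ.leadingCoeff) (J : ℕ) (hJ : 2 ≤ J)
    (hJk : J ≤ Φ.natDegree) (ε : ℝ) (hε : 0 < ε) : ∃ C : ℝ, ∀ N : ℕ, 1 ≤ N →
    (Set.ncard {n : ℕ | 1 ≤ n ∧ n ≤ N ∧ ¬ ∃ x y : ℕ, 0 < x ∧ 0 < y ∧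
      Nat.nth Nat.Prime (x - 1) ≠ Nat.nth Nat.Prime (y - 1) ∧
      ((Nat.nth Nat.Prime (x - 1) + Nat.nth Nat.Prime (y - 1) : ℕ) : ℤ) =
        2 * Φ.eval (n : ℤ)} : ℝ) ≤
      C * (N : ℝ) ^ (1 - ((J : ℝ) - 7 / 12 * (Φ.natDegree : ℝ)) / 2 ^ (J - 1) + ε) := by
  obtain ⟨C, h⟩ := Th.thin712 (fun _ => Th.mag_all) Φ hΦ (by omega) hJk hε
  refine ⟨C, fun N hN => le_trans (le_of_eq ?_) (h N hN)⟩
  congr 2
  ext n
  refine and_congr_right fun _ => and_congr_right fun _ => not_congr ⟨?_, ?_⟩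
  · rintro ⟨x, y, -, -, a, b⟩
    exact ⟨_, ⟨_, _, Nat.prime_nth_prime _, Nat.prime_nth_prime _, a, rfl⟩, b⟩
  · rintro ⟨_, ⟨p, q, hp, hq, a, rfl⟩, b⟩
    refine ⟨Nat.count Nat.Prime p + 1, Nat.count Nat.Prime q + 1, by omega, by omega, ?_⟩
    simpa only [Nat.add_sub_cancel, Nat.nth_count hp, Nat.nth_count hq] using And.intro a b

end Pool.Agent.Results.MP_778b46_nt.ThinSequences
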